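import Pool.Agent.H34.WM.StmA

set_option autoImplicit false

/-!
# Eigenfunctions of polygonal billiards, piece W4: telescoping of the energies of the modes
-/

namespace H85.WM

open MeasureTheory Set Metric Filter Topology H82.Bil H87.BP H87.VA H82.ER H9.WM H34.WM

open scoped ComplexConjugate ENNReal NNReal

/-! ### Bessel -/

/-- Fourier coefficients (not normalised). -/
private noncomputable def fc (g : Dir → ℝ) (m : ℕ) : ℂ := ∫ θ : Dir, e θ ^ m * (g θ : ℂ)

private lemma coeff_eq {g : Dir → ℝ} (n : ℕ) :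
    fourierCoeff (fun θ : Dir => (g θ : ℂ)) (-(n : ℤ)) = (2 * Real.pi)⁻¹ • fc g n := by
  have h1 : ∀ θ : Dir, fourier (T := 2 * Real.pi) (n : ℤ) θ = e θ ^ n := by
    intro θ
    rw [fourier_apply, natCast_zsmul]
    induction n with
    | zero => simp
    | succ n ih => rw [succ_nsmul, AddCircle.toCircle_add, Circle.coe_mul, ih, pow_succ]; rfl
  unfold fourierCoeff
  rw [AddCircle.integral_haarAddCircle, neg_neg]
  simp_rw [h1, smul_eq_mul]
  rfl

private lemma fc_parseval {g : Dir → ℝ} (hg : MemLp g 2) :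
    HasSum (fun i : ℤ => ‖fourierCoeff (fun θ : Dir => (g θ : ℂ)) i‖ ^ 2)
      (∫ θ : Dir, ‖(g θ : ℂ)‖ ^ 2 ∂AddCircle.haarAddCircle) := by
  have h1 : MemLp (fun θ : Dir => (g θ : ℂ)) 2 AddCircle.haarAddCircle :=
    memLp_haarAddCircle_iff.mpr hg.ofReal
  have h2 := hasSum_sq_fourierCoeff (h1.toLp _)
  rw [fourierCoeff_congr_ae h1.coeFn_toLp] at h2
  have h3 : ∫ θ : Dir, ‖(h1.toLp _) θ‖ ^ 2 ∂AddCircle.haarAddCircle =
      ∫ θ : Dir, ‖(g θ : ℂ)‖ ^ 2 ∂AddCircle.haarAddCircle := by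
    refine integral_congr_ae ?_
    filter_upwards [h1.coeFn_toLp] with θ hθ
    rw [hθ]
  rwa [h3] at h2

/-- Bessel's inequality. -/
private lemma bessel {g : Dir → ℝ} (hg : MemLp g 2) (S : Finset ℕ) :
    ∑ n ∈ S, ‖fc g n‖ ^ 2 ≤ 2 * Real.pi * ∫ θ : Dir, g θ ^ 2 := by
  have hp : (0 : ℝ) < 2 * Real.pi := by positivity
  have h1 := fc_parseval hg
  have h2 : ∑ n ∈ S, ‖fourierCoeff (fun θ : Dir => (g θ : ℂ)) (-(n : ℤ))‖ ^ 2 ≤
      ∫ θ : Dir, ‖(g θ : ℂ)‖ ^ 2 ∂AddCircle.haarAddCircle := by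
    have hinj : Function.Injective (fun n : ℕ => -(n : ℤ)) := by
      intro a b h
      simpa using h
    have h3 := sum_le_hasSum (S.map ⟨_, hinj⟩) (fun i _ => by positivity) h1
    rwa [Finset.sum_map] at h3
  have h4 : ∫ θ : Dir, ‖(g θ : ℂ)‖ ^ 2 ∂AddCircle.haarAddCircle =
      (2 * Real.pi)⁻¹ * ∫ θ : Dir, g θ ^ 2 := by
    rw [AddCircle.integral_haarAddCircle, smul_eq_mul]
    congr 1
    refine integral_congr_ae (ae_of_all _ fun θ => ?_)
    simp only
    rw [Complex.norm_real, Real.norm_eq_abs, sq_abs]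
  have h5 : ∀ n : ℕ, ‖fc g n‖ ^ 2 = (2 * Real.pi) ^ 2 *
      ‖fourierCoeff (fun θ : Dir => (g θ : ℂ)) (-(n : ℤ))‖ ^ 2 := by
    intro n
    rw [coeff_eq, norm_smul, Real.norm_of_nonneg (inv_nonneg.mpr hp.le), ← mul_pow, ← mul_assoc,
      mul_inv_cancel₀ hp.ne', one_mul]
  simp_rw [h5]
  rw [← Finset.mul_sum]
  rw [h4] at h2
  calc (2 * Real.pi) ^ 2 * ∑ n ∈ S, ‖fourierCoeff (fun θ : Dir => (g θ : ℂ)) (-(n : ℤ))‖ ^ 2
      ≤ (2 * Real.pi) ^ 2 * ((2 * Real.pi)⁻¹ * ∫ θ : Dir, g θ ^ 2) := by gcongr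
    _ = 2 * Real.pi * ∫ θ : Dir, g θ ^ 2 := by
        field_simp

private lemma am_sm {v : ℂ × Dir → ℝ} (hv : Measurable v) (m : ℕ) :
    StronglyMeasurable (am m v) := by
  have h1 : StronglyMeasurable (fun p : ℂ × Dir => e p.2 ^ m * (v p : ℂ)) :=
    (((continuous_e.comp continuous_snd).pow m).stronglyMeasurable).mul
      (Complex.measurable_ofReal.comp hv).stronglyMeasurable
  exact h1.integral_prod_right'

private lemma am_b {v : ℂ × Dir → ℝ} {L : ℝ} (hL : ∀ a, |v a| ≤ L) (m : ℕ) (x : ℂ) :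
    ‖am m v x‖ ≤ ∫ _θ : Dir, L := by
  refine norm_integral_le_of_norm_le (integrable_const L) (ae_of_all _ fun θ => ?_)
  rw [norm_mul, norm_pow, norm_e, one_pow, one_mul, Complex.norm_real, Real.norm_eq_abs]
  exact hL _

private lemma am_sq_int {U : Set ℂ} [IsFiniteMeasure (volume.restrict U)] {v : ℂ × Dir → ℝ}
    (hv : Measurable v) {L : ℝ} (hL : ∀ a, |v a| ≤ L) (m : ℕ) :
    Integrable (fun x => ‖am m v x‖ ^ 2) (volume.restrict U) := by
  refine Integrable.mono' (integrable_const ((∫ _θ : Dir, L) ^ 2))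
    ((am_sm hv m).norm.pow 2).aestronglyMeasurable (ae_of_all _ fun x => ?_)
  rw [Real.norm_eq_abs, abs_of_nonneg (sq_nonneg _)]
  exact pow_le_pow_left₀ (norm_nonneg _) (am_b hL m x) 2

private lemma mem2 {v : ℂ × Dir → ℝ} (hv : Measurable v) {L : ℝ} (hL : ∀ a, |v a| ≤ L) (x : ℂ) :
    MemLp (fun θ : Dir => v (x, θ)) 2 := by
  refine MemLp.of_bound (hv.comp measurable_prodMk_left).aestronglyMeasurable L
    (ae_of_all _ fun θ => ?_)
  rw [Real.norm_eq_abs]
  exact hL _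

private lemma restr (U : Set ℂ) :
    (volume.restrict (U ×ˢ (univ : Set Dir)) : Measure (ℂ × Dir)) =
      (volume.restrict U).prod volume := by
  rw [Measure.volume_eq_prod, ← Measure.prod_restrict, Measure.restrict_univ]

/-- Bessel's inequality, integrated over the positions -/
private lemma bessel_int {U : Set ℂ} [IsFiniteMeasure (volume.restrict U)] {v : ℂ × Dir → ℝ}
    (hv : Measurable v) {L : ℝ} (hL : ∀ a, |v a| ≤ L) (F : Finset ℕ) :
    ∑ k ∈ F, ∫ x in U, ‖am k v x‖ ^ 2 ≤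
      2 * Real.pi * ∫ a in U ×ˢ (univ : Set Dir), v a ^ 2 := by
  have hI : Integrable (fun a : ℂ × Dir => v a ^ 2) ((volume.restrict U).prod volume) := by
    refine Integrable.mono' (integrable_const (L ^ 2)) (hv.pow_const 2).aestronglyMeasurable
      (ae_of_all _ fun a => ?_)
    rw [Real.norm_eq_abs, abs_of_nonneg (sq_nonneg _), ← sq_abs]
    exact pow_le_pow_left₀ (abs_nonneg _) (hL a) 2
  rw [← integral_finsetSum _ fun k _ => am_sq_int hv hL k, restr, integral_prod _ hI,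
    ← integral_const_mul]
  refine integral_mono (integrable_finsetSum _ fun k _ => am_sq_int hv hL k)
    (hI.integral_prod_left.const_mul _) fun x => ?_
  exact bessel (mem2 hv hL x) F

/-! ### inner products of bounded functions -/

/-- bounded measurable functions -/
private structure Gd (f : ℂ → ℂ) : Prop where
  m : StronglyMeasurable f
  b : ∃ K : ℝ, ∀ x, ‖f x‖ ≤ K

private noncomputable def ip (U : Set ℂ) (f g : ℂ → ℂ) : ℝ := ∫ x in U, (conj (f x) * g x).re

private lemma Gd.am {v : ℂ × Dir → ℝ} (hv : Measurable v) {L : ℝ} (hL : ∀ a, |v a| ≤ L)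
    (m : ℕ) : Gd (am m v) := ⟨am_sm hv m, _, am_b hL m⟩

private lemma Gd.lin {f g : ℂ → ℂ} (hf : Gd f) (hg : Gd g) (c d : ℂ) :
    Gd (fun x => c * f x + d * g x) := by
  obtain ⟨K, hK⟩ := hf.b
  obtain ⟨K', hK'⟩ := hg.b
  refine ⟨(hf.m.const_mul c).add (hg.m.const_mul d), ‖c‖ * K + ‖d‖ * K', fun x => ?_⟩
  refine (norm_add_le _ _).trans ?_
  rw [norm_mul, norm_mul]
  gcongr
  · exact hK x
  · exact hK' x

private lemma Gd.int {U : Set ℂ} [IsFiniteMeasure (volume.restrict U)] {f g : ℂ → ℂ}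
    (hf : Gd f) (hg : Gd g) :
    Integrable (fun x => (conj (f x) * g x).re) (volume.restrict U) := by
  obtain ⟨K, hK⟩ := hf.b
  obtain ⟨K', hK'⟩ := hg.b
  have hm : StronglyMeasurable (fun x => (conj (f x) * g x).re) :=
    Complex.continuous_re.comp_stronglyMeasurable
      ((Complex.continuous_conj.comp_stronglyMeasurable hf.m).mul hg.m)
  refine Integrable.mono' (integrable_const (K * K')) hm.aestronglyMeasurable
    (ae_of_all _ fun x => ?_)
  rw [Real.norm_eq_abs]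
  refine (Complex.abs_re_le_norm _).trans ?_
  rw [norm_mul, RCLike.norm_conj]
  exact mul_le_mul (hK x) (hK' x) (norm_nonneg _) ((norm_nonneg _).trans (hK x))

private lemma ip_comm (U : Set ℂ) (f g : ℂ → ℂ) : ip U f g = ip U g f := by
  refine integral_congr_ae (ae_of_all _ fun x => ?_)
  simp only [Complex.mul_re, Complex.conj_re, Complex.conj_im]
  ring

private lemma ip_self (U : Set ℂ) (f : ℂ → ℂ) : ip U f f = ∫ x in U, ‖f x‖ ^ 2 := by
  refine integral_congr_ae (ae_of_all _ fun x => ?_)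
  simp only
  rw [← Complex.normSq_eq_norm_sq, Complex.normSq_apply]
  simp only [Complex.mul_re, Complex.conj_re, Complex.conj_im]
  ring

private lemma ip_self_nonneg (U : Set ℂ) (f : ℂ → ℂ) : 0 ≤ ip U f f := by
  rw [ip_self]
  exact integral_nonneg fun x => sq_nonneg _

private lemma ip_lin {U : Set ℂ} [IsFiniteMeasure (volume.restrict U)] {f g h : ℂ → ℂ}
    (hf : Gd f) (hg : Gd g) (hh : Gd h) (c d : ℝ) :
    ip U f (fun x => (c : ℂ) * g x + (d : ℂ) * h x) = c * ip U f g + d * ip U f h := by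
  unfold ip
  rw [← integral_const_mul, ← integral_const_mul,
    ← integral_add ((hf.int hg).const_mul c) ((hf.int hh).const_mul d)]
  refine integral_congr_ae (ae_of_all _ fun x => ?_)
  simp only [Complex.mul_re, Complex.mul_im, Complex.add_re, Complex.add_im, Complex.conj_re,
    Complex.conj_im, Complex.ofReal_re, Complex.ofReal_im]
  ring

private lemma ip_lin2 {U : Set ℂ} [IsFiniteMeasure (volume.restrict U)] {f g : ℂ → ℂ}
    (hf : Gd f) (hg : Gd g) (c d : ℝ) :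
    ip U (fun x => (c : ℂ) * f x + (d : ℂ) * g x) (fun x => (c : ℂ) * f x + (d : ℂ) * g x) =
      c ^ 2 * ip U f f + 2 * c * d * ip U f g + d ^ 2 * ip U g g := by
  have h := hf.lin hg c d
  rw [ip_lin h hf hg, ip_comm U _ f, ip_comm U _ g, ip_lin hf hf hg, ip_lin hg hf hg,
    ip_comm U g f]
  ring

private lemma ip_abs {U : Set ℂ} [IsFiniteMeasure (volume.restrict U)] {f g : ℂ → ℂ}
    (hf : Gd f) (hg : Gd g) {t : ℝ} (ht : 0 < t) :
    |ip U f g| ≤ (t * ip U g g + ip U f f / t) / 2 := by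
  have h1 := ip_self_nonneg U (fun x => ((1 : ℝ) : ℂ) * f x + ((-t : ℝ) : ℂ) * g x)
  have h2 := ip_self_nonneg U (fun x => ((1 : ℝ) : ℂ) * f x + ((t : ℝ) : ℂ) * g x)
  rw [ip_lin2 hf hg] at h1 h2
  have h3 : t * ip U g g + ip U f f / t - 2 * ip U f g =
      (1 ^ 2 * ip U f f + 2 * 1 * (-t) * ip U f g + (-t) ^ 2 * ip U g g) / t := by
    field_simp
    ring
  have h4 : t * ip U g g + ip U f f / t + 2 * ip U f g =
      (1 ^ 2 * ip U f f + 2 * 1 * t * ip U f g + t ^ 2 * ip U g g) / t := by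
    field_simp
    ring
  have h5 := div_nonneg h1 ht.le
  have h6 := div_nonneg h2 ht.le
  rw [← h3] at h5
  rw [← h4] at h6
  rw [abs_le]
  constructor <;> linarith

/-! ### the derivative along the flow -/

private noncomputable def pp (A1 A2 : ℂ × Dir → ℝ) (k : ℕ) (x : ℂ) : ℂ :=
  am k A1 x + Complex.I * am k A2 x

private noncomputable def qq (A1 A2 : ℂ × Dir → ℝ) (k : ℕ) (x : ℂ) : ℂ :=
  am k A1 x - Complex.I * am k A2 x

private noncomputable def xd (A1 A2 : ℂ × Dir → ℝ) (a : ℂ × Dir) : ℝ :=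
  (e a.2).re * A1 a + (e a.2).im * A2 a

private lemma xd_m {A1 A2 : ℂ × Dir → ℝ} (hA1 : Measurable A1) (hA2 : Measurable A2) :
    Measurable (xd A1 A2) := by
  have h1 : Measurable (fun a : ℂ × Dir => (e a.2).re) :=
    (Complex.continuous_re.comp (continuous_e.comp continuous_snd)).measurable
  have h2 : Measurable (fun a : ℂ × Dir => (e a.2).im) :=
    (Complex.continuous_im.comp (continuous_e.comp continuous_snd)).measurable
  exact (h1.mul hA1).add (h2.mul hA2)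

private lemma xd_b {A1 A2 : ℂ × Dir → ℝ} {L : ℝ} (hL1 : ∀ a, |A1 a| ≤ L)
    (hL2 : ∀ a, |A2 a| ≤ L) (a : ℂ × Dir) : |xd A1 A2 a| ≤ 2 * L := by
  have h1 : |(e a.2).re| ≤ 1 := (Complex.abs_re_le_norm _).trans (le_of_eq (norm_e _))
  have h2 : |(e a.2).im| ≤ 1 := (Complex.abs_im_le_norm _).trans (le_of_eq (norm_e _))
  calc |xd A1 A2 a| ≤ |(e a.2).re * A1 a| + |(e a.2).im * A2 a| := abs_add_le _ _
    _ = |(e a.2).re| * |A1 a| + |(e a.2).im| * |A2 a| := by rw [abs_mul, abs_mul]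
    _ ≤ 1 * L + 1 * L := by
        gcongr
        · exact hL1 a
        · exact hL2 a
    _ = 2 * L := by ring

private lemma am_i {v : ℂ × Dir → ℝ} (hv : Measurable v) {L : ℝ} (hL : ∀ a, |v a| ≤ L)
    (x : ℂ) (n : ℕ) : Integrable (fun θ : Dir => e θ ^ n * (v (x, θ) : ℂ)) := by
  refine (((mem2 hv hL x).integrable one_le_two).ofReal (𝕜 := ℂ)).bdd_mul (c := 1)
    (continuous_e.pow n).aestronglyMeasurable (ae_of_all _ fun θ => ?_)
  rw [norm_pow, norm_e, one_pow]

private lemma rec_eq {A1 A2 : ℂ × Dir → ℝ} (hA1 : Measurable A1) (hA2 : Measurable A2) {L : ℝ}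
    (hL1 : ∀ a, |A1 a| ≤ L) (hL2 : ∀ a, |A2 a| ≤ L) (k : ℕ) (x : ℂ) :
    pp A1 A2 k x + qq A1 A2 (k + 2) x = 2 * am (k + 1) (xd A1 A2) x := by
  have hi1 := am_i hA1 hL1 x
  have hi2 := am_i hA2 hL2 x
  have hPe : pp A1 A2 k x = ∫ θ : Dir, (e θ ^ k * (A1 (x, θ) : ℂ) +
      Complex.I * (e θ ^ k * (A2 (x, θ) : ℂ))) := by
    rw [integral_add (hi1 k) ((hi2 k).const_mul _), integral_const_mul]
    rfl
  have hQe : qq A1 A2 (k + 2) x = ∫ θ : Dir, (e θ ^ (k + 2) * (A1 (x, θ) : ℂ) -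
      Complex.I * (e θ ^ (k + 2) * (A2 (x, θ) : ℂ))) := by
    rw [integral_sub (hi1 (k + 2)) ((hi2 (k + 2)).const_mul _), integral_const_mul]
    rfl
  have hSe : 2 * am (k + 1) (xd A1 A2) x =
      ∫ θ : Dir, 2 * (e θ ^ (k + 1) * (xd A1 A2 (x, θ) : ℂ)) := by
    rw [integral_const_mul]
    rfl
  have hadd := integral_add ((hi1 k).add ((hi2 k).const_mul Complex.I))
    ((hi1 (k + 2)).sub ((hi2 (k + 2)).const_mul Complex.I))
  rw [hPe, hQe, hSe]
  refine Eq.trans hadd.symm ?_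
  refine integral_congr_ae (ae_of_all _ fun θ => ?_)
  simp only [xd, Pi.add_apply, Pi.sub_apply]
  have h1 : e θ * conj (e θ) = 1 := by
    rw [Complex.mul_conj', norm_e]
    norm_num
  have h2 : e θ ^ k = e θ ^ (k + 1) * conj (e θ) := by
    rw [pow_succ, mul_assoc, h1, mul_one]
  have h3 : e θ ^ (k + 2) = e θ ^ (k + 1) * e θ := by
    rw [← pow_succ]
  rw [h2, h3]
  have h4 : ((e θ).re : ℂ) = (e θ + conj (e θ)) / 2 := Complex.re_eq_add_conj _
  have h5 : ((e θ).im : ℂ) = (e θ - conj (e θ)) / (2 * Complex.I) := Complex.im_eq_sub_conj _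
  push_cast
  rw [h4, h5]
  field_simp
  ring_nf
  rw [Complex.I_sq]
  ring

/-- real part of the mode `0` -/
private lemma rec0 {A1 A2 : ℂ × Dir → ℝ} (hA1 : Measurable A1) (hA2 : Measurable A2) {L : ℝ}
    (hL1 : ∀ a, |A1 a| ≤ L) (hL2 : ∀ a, |A2 a| ≤ L) (x : ℂ) :
    (qq A1 A2 1 x).re = (am 0 (xd A1 A2) x).re := by
  have hi1 := am_i hA1 hL1 x
  have hi2 := am_i hA2 hL2 x
  have hQe : qq A1 A2 1 x = ∫ θ : Dir, (e θ ^ 1 * (A1 (x, θ) : ℂ) -
      Complex.I * (e θ ^ 1 * (A2 (x, θ) : ℂ))) := by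
    rw [integral_sub (hi1 1) ((hi2 1).const_mul _), integral_const_mul]
    rfl
  have hI1 : Integrable (fun θ : Dir => (e θ ^ 1 * (A1 (x, θ) : ℂ) -
      Complex.I * (e θ ^ 1 * (A2 (x, θ) : ℂ)))) := (hi1 1).sub ((hi2 1).const_mul _)
  have hI2 := am_i (xd_m hA1 hA2) (xd_b hL1 hL2) x 0
  rw [hQe, am]
  have e1 := integral_re hI1
  have e2 := integral_re hI2
  simp only [RCLike.re_eq_complex_re] at e1 e2
  rw [← e1, ← e2]
  refine integral_congr_ae (ae_of_all _ fun θ => ?_)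
  simp only [xd, pow_zero, pow_one, one_mul, Complex.sub_re, Complex.mul_re, Complex.mul_im,
    Complex.ofReal_re, Complex.ofReal_im, Complex.I_re, Complex.I_im]
  ring

private lemma am0_im {v : ℂ × Dir → ℝ} (x : ℂ) : (am 0 v x).im = 0 := by
  have h : am 0 v x = ((∫ θ : Dir, v (x, θ) : ℝ) : ℂ) := by
    rw [am, ← integral_complex_ofReal]
    refine integral_congr_ae (ae_of_all _ fun θ => ?_)
    simp
  rw [h, Complex.ofReal_im]

private lemma am_add {v w : ℂ × Dir → ℝ} (hv : Measurable v) {L : ℝ} (hL : ∀ a, |v a| ≤ L)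
    (hw : Measurable w) {L' : ℝ} (hL' : ∀ a, |w a| ≤ L') (c : ℝ) (n : ℕ) (x : ℂ) :
    am n (fun a => v a + c * w a) x = am n v x + (c : ℂ) * am n w x := by
  unfold am
  rw [← integral_const_mul, ← integral_add (am_i hv hL x n) ((am_i hw hL' x n).const_mul _)]
  refine integral_congr_ae (ae_of_all _ fun θ => ?_)
  simp only
  push_cast
  ring

private lemma par_eq (a b : ℂ) :
    ‖a + Complex.I * b‖ ^ 2 + ‖a - Complex.I * b‖ ^ 2 = 2 * (‖a‖ ^ 2 + ‖b‖ ^ 2) := by
  simp only [← Complex.normSq_eq_norm_sq, Complex.normSq_apply, Complex.add_re, Complex.add_im,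
    Complex.sub_re, Complex.sub_im, Complex.mul_re, Complex.mul_im, Complex.I_re, Complex.I_im]
  ring

private lemma jac_eq (a b : ℂ) :
    ‖a + Complex.I * b‖ ^ 2 - ‖a - Complex.I * b‖ ^ 2 = -4 * (a.re * b.im - a.im * b.re) := by
  simp only [← Complex.normSq_eq_norm_sq, Complex.normSq_apply, Complex.add_re, Complex.add_im,
    Complex.sub_re, Complex.sub_im, Complex.mul_re, Complex.mul_im, Complex.I_re, Complex.I_im]
  ring

private lemma pp_gd {A1 A2 : ℂ × Dir → ℝ} (hA1 : Measurable A1) (hA2 : Measurable A2) {L : ℝ}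
    (hL1 : ∀ a, |A1 a| ≤ L) (hL2 : ∀ a, |A2 a| ≤ L) (k : ℕ) : Gd (pp A1 A2 k) := by
  have h := (Gd.am hA1 hL1 k).lin (Gd.am hA2 hL2 k) 1 Complex.I
  simp only [one_mul] at h
  exact h

private lemma qq_gd {A1 A2 : ℂ × Dir → ℝ} (hA1 : Measurable A1) (hA2 : Measurable A2) {L : ℝ}
    (hL1 : ∀ a, |A1 a| ≤ L) (hL2 : ∀ a, |A2 a| ≤ L) (k : ℕ) : Gd (qq A1 A2 k) := by
  have h := (Gd.am hA1 hL1 k).lin (Gd.am hA2 hL2 k) 1 (-Complex.I)
  simp only [one_mul, neg_mul, ← sub_eq_add_neg] at h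
  exact h

/-- the energies of `P` and `Q` -/
private lemma energy {U : Set ℂ} [IsFiniteMeasure (volume.restrict U)] {A1 A2 : ℂ × Dir → ℝ}
    (hA1 : Measurable A1) (hA2 : Measurable A2) {L : ℝ}
    (hL1 : ∀ a, |A1 a| ≤ L) (hL2 : ∀ a, |A2 a| ≤ L) (k : ℕ)
    (hj : ∫ x in U, ((am k A1 x).re * (am k A2 x).im - (am k A1 x).im * (am k A2 x).re) = 0) :
    ip U (pp A1 A2 k) (pp A1 A2 k) = ∫ x in U, (‖am k A1 x‖ ^ 2 + ‖am k A2 x‖ ^ 2) ∧
      ip U (qq A1 A2 k) (qq A1 A2 k) = ∫ x in U, (‖am k A1 x‖ ^ 2 + ‖am k A2 x‖ ^ 2) := by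
  have hP := pp_gd hA1 hA2 hL1 hL2 k
  have hQ := qq_gd hA1 hA2 hL1 hL2 k
  have h1 : ip U (pp A1 A2 k) (pp A1 A2 k) + ip U (qq A1 A2 k) (qq A1 A2 k) =
      2 * ∫ x in U, (‖am k A1 x‖ ^ 2 + ‖am k A2 x‖ ^ 2) := by
    unfold ip
    rw [← integral_add (hP.int hP) (hQ.int hQ), ← integral_const_mul]
    refine integral_congr_ae (ae_of_all _ fun x => ?_)
    simp only
    rw [← par_eq, ← Complex.normSq_eq_norm_sq, ← Complex.normSq_eq_norm_sq,
      Complex.normSq_apply, Complex.normSq_apply]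
    simp only [pp, qq, Complex.mul_re, Complex.conj_re, Complex.conj_im]
    ring
  have h2 : ip U (pp A1 A2 k) (pp A1 A2 k) - ip U (qq A1 A2 k) (qq A1 A2 k) = 0 := by
    unfold ip
    rw [← integral_sub (hP.int hP) (hQ.int hQ)]
    have h3 : ∫ x in U, ((conj (pp A1 A2 k x) * pp A1 A2 k x).re -
        (conj (qq A1 A2 k x) * qq A1 A2 k x).re) = ∫ x in U, -4 *
        ((am k A1 x).re * (am k A2 x).im - (am k A1 x).im * (am k A2 x).re) := by
      refine integral_congr_ae (ae_of_all _ fun x => ?_)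
      simp only
      rw [← jac_eq, ← Complex.normSq_eq_norm_sq, ← Complex.normSq_eq_norm_sq,
        Complex.normSq_apply, Complex.normSq_apply]
      simp only [pp, qq, Complex.mul_re, Complex.conj_re, Complex.conj_im]
      ring
    rw [h3, integral_const_mul, hj, mul_zero]
  constructor <;> linarith

/-! ### sequences -/

private lemma tele (F d : ℕ → ℝ) (T : ℝ) (hT : ∀ S : Finset ℕ, ∑ n ∈ S, d n ≤ T)
    (hF : ∀ n, F n ≤ F (n + 1) + (d n + d (n + 1) + d (n + 2)))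
    (hlim : Tendsto F atTop (𝓝 0)) (m : ℕ) : F m ≤ 3 * T := by
  have h1 : ∀ N, F m ≤ F (m + N) + ((∑ i ∈ Finset.range N, d (m + i)) +
      (∑ i ∈ Finset.range N, d (m + i + 1)) + ∑ i ∈ Finset.range N, d (m + i + 2)) := by
    intro N
    induction N with
    | zero => simp
    | succ N ih =>
      rw [Finset.sum_range_succ, Finset.sum_range_succ, Finset.sum_range_succ]
      have h2 := hF (m + N)
      have h3 : m + (N + 1) = m + N + 1 := by ring
      rw [h3]
      linarith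
  have h2 : ∀ (j N : ℕ), ∑ i ∈ Finset.range N, d (m + i + j) ≤ T := by
    intro j N
    have hinj : Function.Injective (fun i : ℕ => m + i + j) := by
      intro a b h
      simp only at h
      omega
    have h3 := hT ((Finset.range N).map ⟨_, hinj⟩)
    rwa [Finset.sum_map] at h3
  have h3 : ∀ N, F m ≤ F (m + N) + 3 * T := by
    intro N
    have a0 := h2 0 N
    have a1 := h2 1 N
    have a2 := h2 2 N
    simp only [add_zero] at a0
    linarith [h1 N]
  have h4 : Tendsto (fun N => F (m + N) + 3 * T) atTop (𝓝 (0 + 3 * T)) := by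
    refine Tendsto.add_const _ (hlim.comp ?_)
    exact tendsto_atTop_mono (fun N => Nat.le_add_left N m) tendsto_id
  rw [zero_add] at h4
  exact ge_of_tendsto' h4 h3

/-- the choice of the parameter -/
private lemma opt {c X Y K : ℝ} (hX : 0 ≤ X) (hY : 0 ≤ Y)
    (h : ∀ t : ℝ, 0 < t → c ≤ K * (t * X + Y / t)) :
    c ≤ 2 * K * (Real.sqrt X * Real.sqrt Y) := by
  rcases hX.eq_or_lt with h0 | h0
  · rw [← h0, Real.sqrt_zero, zero_mul, mul_zero]
    have h1 : Tendsto (fun t : ℝ => K * (t * X + Y / t)) atTop (𝓝 (K * (0 + 0))) := by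
      refine Tendsto.const_mul _ (Tendsto.add ?_ ?_)
      · rw [← h0]
        simp
      · exact tendsto_const_nhds.div_atTop tendsto_id
    rw [add_zero, mul_zero] at h1
    exact ge_of_tendsto h1 ((eventually_gt_atTop 0).mono h)
  rcases hY.eq_or_lt with h2 | h2
  · rw [← h2, Real.sqrt_zero, mul_zero, mul_zero]
    have h1 : Tendsto (fun t : ℝ => K * (t * X + Y / t)) (𝓝[>] 0) (𝓝 (K * (0 * X + 0))) := by
      refine Tendsto.const_mul _ (Tendsto.add ?_ ?_)
      · exact (tendsto_id.mono_left nhdsWithin_le_nhds).mul_const X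
      · refine Tendsto.congr (f₁ := fun _ => (0 : ℝ)) (fun t => ?_) tendsto_const_nhds
        rw [← h2, zero_div]
    rw [zero_mul, add_zero, mul_zero] at h1
    exact ge_of_tendsto h1 (eventually_mem_nhdsWithin.mono fun t ht => h t ht)
  have hsX : 0 < Real.sqrt X := Real.sqrt_pos.2 h0
  have hsY : 0 < Real.sqrt Y := Real.sqrt_pos.2 h2
  have h3 := h (Real.sqrt Y / Real.sqrt X) (div_pos hsY hsX)
  have h4 : Real.sqrt Y / Real.sqrt X * X + Y / (Real.sqrt Y / Real.sqrt X) =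
      2 * (Real.sqrt X * Real.sqrt Y) := by
    have h5 : X = Real.sqrt X * Real.sqrt X := (Real.mul_self_sqrt hX).symm
    have h6 : Y = Real.sqrt Y * Real.sqrt Y := (Real.mul_self_sqrt hY).symm
    generalize Real.sqrt X = p at *
    generalize Real.sqrt Y = q at *
    subst h5 h6
    field_simp
    ring
  rw [h4] at h3
  linarith

/-- the real sequences -/
private lemma seq_main (w : ℝ) (E A J er ee x : ℕ → ℝ) (κ X Y Z : ℝ) (hκ : 0 ≤ κ) (hX : 0 ≤ X)
    (hY : 0 ≤ Y) (hZ : 0 ≤ Z)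
    (hE : ∀ n, E (n + 2) - E n = 4 * w ^ 2 * A (n + 1) + 4 * w * J (n + 1) + er (n + 1))
    (hJ : ∀ n, J (n + 2) + J (n + 1) = -2 * w * A (n + 1) + ee (n + 1))
    (hJ0 : 2 * J 1 = -2 * w * A 0 + ee 0)
    (x0 : ∀ n, 0 ≤ x n) (A0 : ∀ n, 0 ≤ A n) (E0 : ∀ n, 0 ≤ E n)
    (sx : ∀ S : Finset ℕ, ∑ n ∈ S, x n ≤ κ * X) (sA : ∀ S : Finset ℕ, ∑ n ∈ S, A n ≤ κ * Z)
    (sE : ∀ S : Finset ℕ, ∑ n ∈ S, E n ≤ κ * Y)
    (ber : ∀ n t τ, 0 < t → 0 < τ → |er (n + 1)| ≤ 4 * |w| * (t * x (n + 1) + A (n + 1) / t) +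
      4 * x (n + 1) + 2 * (τ * x (n + 1) + E n / τ))
    (bee : ∀ n t, 0 < t → |ee n| ≤ t * x n + A n / t) :
    (∀ n, E n + 2 * E (n + 1) + E (n + 2) ≤ 4 * w ^ 2 * A (n + 1) +
      κ * (64 * (Real.sqrt X * (Real.sqrt Y + |w| * Real.sqrt Z + Real.sqrt X)))) ∧
    2 * E 0 + 2 * E 1 ≤ 4 * w ^ 2 * A 0 +
      κ * (64 * (Real.sqrt X * (Real.sqrt Y + |w| * Real.sqrt Z + Real.sqrt X))) := by
  have hw := abs_nonneg w
  have key : ∀ t τ : ℝ, 0 < t → 0 < τ →
      (∀ n, E n + 2 * E (n + 1) + E (n + 2) - 4 * w ^ 2 * A (n + 1) ≤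
        4 * (κ * (8 * |w| * (t * X + Z / t) + 4 * X + 2 * (τ * X + Y / τ)))) ∧
      2 * E 0 + 2 * E 1 - 4 * w ^ 2 * A 0 ≤
        4 * (κ * (8 * |w| * (t * X + Z / t) + 4 * X + 2 * (τ * X + Y / τ))) := by
    intro t τ ht hτ
    set d : ℕ → ℝ := fun n => 8 * |w| * (t * x n + A n / t) + 4 * x n +
      2 * (τ * x n + E n / τ) with hd
    have hdn : ∀ n, 0 ≤ t * x n + A n / t := fun n => by
      have := x0 n
      have := A0 n
      positivity
    have hdn2 : ∀ n, 0 ≤ τ * x n + E n / τ := fun n => by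
      have := x0 n
      have := E0 n
      positivity
    have hd0 : ∀ n, 0 ≤ d n := fun n => by
      have := x0 n
      have := hdn n
      have := hdn2 n
      simp only [hd]
      positivity
    set T : ℝ := κ * (8 * |w| * (t * X + Z / t) + 4 * X + 2 * (τ * X + Y / τ)) with hTd
    have hT : ∀ S : Finset ℕ, ∑ n ∈ S, d n ≤ T := by
      intro S
      have h1 : ∑ n ∈ S, d n = 8 * |w| * (t * (∑ n ∈ S, x n) + (∑ n ∈ S, A n) / t) +
          4 * (∑ n ∈ S, x n) + 2 * (τ * (∑ n ∈ S, x n) + (∑ n ∈ S, E n) / τ) := by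
        simp only [hd, Finset.sum_add_distrib, ← Finset.mul_sum, Finset.sum_div]
      have h2 : T = 8 * |w| * (t * (κ * X) + (κ * Z) / t) +
          4 * (κ * X) + 2 * (τ * (κ * X) + (κ * Y) / τ) := by
        rw [hTd]
        ring
      rw [h1, h2]
      have a1 := sx S
      have a2 := sA S
      have a3 := sE S
      gcongr
    have hT0 : 0 ≤ T := by
      have := hT ∅
      simpa using this
    set F : ℕ → ℝ := fun n => E n + 2 * E (n + 1) + E (n + 2) - 4 * w ^ 2 * A (n + 1) with hFd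
    have hF : ∀ n, F n ≤ F (n + 1) + (d n + d (n + 1) + d (n + 2)) := by
      intro n
      have h1 := hE n
      have h2 := hE (n + 1)
      have h3 := hJ n
      have h4 := ber n t τ ht hτ
      have h5 := ber (n + 1) t τ ht hτ
      have h6 := bee (n + 1) t ht
      have h7 : |w * ee (n + 1)| ≤ |w| * (t * x (n + 1) + A (n + 1) / t) := by
        rw [abs_mul]
        exact mul_le_mul_of_nonneg_left h6 hw
      have b4 := (abs_le.1 h4).1
      have b5 := (abs_le.1 h5).1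
      have b7 := (abs_le.1 h7).1
      have h8 : F n - F (n + 1) = -(4 * (w * ee (n + 1)) + er (n + 1 + 1) + er (n + 1)) := by
        simp only [hFd]
        have h9 : w * (J (n + 2) + J (n + 1)) = w * (-2 * w * A (n + 1) + ee (n + 1)) := by
          rw [h3]
        have e1 : n + 1 + 2 = n + 3 := by ring
        have e2 : n + 1 + 1 = n + 2 := by ring
        rw [e1, e2] at h2 ⊢
        linarith
      have q0 := hdn n
      have q1 := hdn (n + 1)
      have q2 := hdn (n + 2)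
      have r0 := x0 n
      have r1 := x0 (n + 1)
      have r2 := x0 (n + 2)
      have p2 : 0 ≤ |w| * (t * x (n + 2) + A (n + 2) / t) := mul_nonneg hw q2
      have p0 : 0 ≤ |w| * (t * x n + A n / t) := mul_nonneg hw q0
      have s1 : 0 ≤ τ * x n := by positivity
      have s2 : 0 ≤ E (n + 2) / τ := by
        have := E0 (n + 2)
        positivity
      simp only [hd]
      have e2 : n + 1 + 1 = n + 2 := by ring
      rw [e2] at b5 h8
      linarith
    have hsE : Tendsto E atTop (𝓝 0) := (summable_of_sum_le E0 sE).tendsto_atTop_zero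
    have hsA : Tendsto A atTop (𝓝 0) := (summable_of_sum_le A0 sA).tendsto_atTop_zero
    have hlim : Tendsto F atTop (𝓝 0) := by
      have h1 := ((hsE.add ((hsE.comp (tendsto_add_atTop_nat 1)).const_mul 2)).add
        (hsE.comp (tendsto_add_atTop_nat 2))).sub
        ((hsA.comp (tendsto_add_atTop_nat 1)).const_mul (4 * w ^ 2))
      simp only [mul_zero, add_zero, sub_zero] at h1
      exact h1
    have hm := tele F d T hT hF hlim
    refine ⟨fun n => ?_, ?_⟩
    · have := hm n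
      simp only [hFd] at this
      linarith
    · have h1 := hE 0
      have h4 := ber 0 t τ ht hτ
      have h6 := bee 0 t ht
      have h7 : |w * ee 0| ≤ |w| * (t * x 0 + A 0 / t) := by
        rw [abs_mul]
        exact mul_le_mul_of_nonneg_left h6 hw
      have b4 := (abs_le.1 h4).1
      have b7 := (abs_le.1 h7).1
      have h9 : w * (2 * J 1) = w * (-2 * w * A 0 + ee 0) := by rw [hJ0]
      have h10 := hm 0
      simp only [hFd, zero_add] at h10
      have hb : d 0 + d 1 ≤ T := by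
        have := hT (Finset.range 2)
        rwa [Finset.sum_range_succ, Finset.sum_range_succ, Finset.sum_range_zero, zero_add] at this
      simp only [hd] at hb
      simp only [zero_add] at h1 b4
      have q0 : 0 ≤ |w| * (t * x 0 + A 0 / t) := mul_nonneg hw (hdn 0)
      have q1 : 0 ≤ |w| * (t * x 1 + A 1 / t) := mul_nonneg hw (hdn 1)
      have r0 := x0 0
      have s1 : 0 ≤ τ * x 0 := by positivity
      have s2 : 0 ≤ E 1 / τ := by
        have := E0 1
        positivity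
      linarith
  have fin : ∀ c : ℝ, (∀ t τ : ℝ, 0 < t → 0 < τ →
      c ≤ 4 * (κ * (8 * |w| * (t * X + Z / t) + 4 * X + 2 * (τ * X + Y / τ)))) →
      c ≤ κ * (64 * (Real.sqrt X * (Real.sqrt Y + |w| * Real.sqrt Z + Real.sqrt X))) := by
    intro c hc
    have h1 : ∀ t : ℝ, 0 < t → c - 32 * κ * |w| * (t * X + Z / t) - 16 * κ * X ≤
        2 * (8 * κ) * (Real.sqrt X * Real.sqrt Y) := by
      intro t ht
      refine opt hX hY fun τ hτ => ?_
      have := hc t τ ht hτ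
      linarith
    have h2 : c - 16 * κ * X - 2 * (8 * κ) * (Real.sqrt X * Real.sqrt Y) ≤
        2 * (32 * κ * |w|) * (Real.sqrt X * Real.sqrt Z) := by
      refine opt hX hZ fun t ht => ?_
      have := h1 t ht
      linarith
    have h3 : Real.sqrt X * Real.sqrt X = X := Real.mul_self_sqrt hX
    have h4 : 0 ≤ κ * (Real.sqrt X * Real.sqrt Y) := by positivity
    have h5 : 0 ≤ κ * X := by positivity
    have h6 : κ * (64 * (Real.sqrt X * (Real.sqrt Y + |w| * Real.sqrt Z + Real.sqrt X))) =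
        64 * (κ * (Real.sqrt X * Real.sqrt Y)) + 2 * (32 * κ * |w|) * (Real.sqrt X * Real.sqrt Z) +
          64 * (κ * (Real.sqrt X * Real.sqrt X)) := by ring
    rw [h6, h3]
    linarith
  refine ⟨fun n => ?_, ?_⟩
  · have := fin _ fun t τ ht hτ => (key t τ ht hτ).1 n
    linarith
  · have := fin _ fun t τ ht hτ => (key t τ ht hτ).2
    linarith

/-- the derivative along the flow and the defect -/
private lemma sig_eq {A1 A2 H : ℂ × Dir → ℝ} (hA1 : Measurable A1) (hA2 : Measurable A2) {L : ℝ}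
    (hL1 : ∀ a, |A1 a| ≤ L) (hL2 : ∀ a, |A2 a| ≤ L) (hH : Measurable H) (hLH : ∀ a, |H a| ≤ L)
    (c : ℝ) (n : ℕ) : am n (xd A1 A2) = fun x => ((-c : ℝ) : ℂ) * am n H x +
      ((1 : ℝ) : ℂ) * am n (fun a => xd A1 A2 a + c * H a) x := by
  funext x
  rw [am_add (xd_m hA1 hA2) (xd_b hL1 hL2) hH hLH]
  push_cast
  ring

private lemma q_eq {A1 A2 : ℂ × Dir → ℝ} (hA1 : Measurable A1) (hA2 : Measurable A2) {L : ℝ}
    (hL1 : ∀ a, |A1 a| ≤ L) (hL2 : ∀ a, |A2 a| ≤ L) (k : ℕ) :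
    qq A1 A2 (k + 2) = fun x => ((2 : ℝ) : ℂ) * am (k + 1) (xd A1 A2) x +
      ((-1 : ℝ) : ℂ) * pp A1 A2 k x := by
  funext x
  have h := rec_eq hA1 hA2 hL1 hL2 k x
  push_cast
  rw [← h]
  ring

/-- the identities for one component -/
private lemma comp {U : Set ℂ} [IsFiniteMeasure (volume.restrict U)] {A1 A2 H : ℂ × Dir → ℝ}
    (hA1 : Measurable A1) (hA2 : Measurable A2) {L : ℝ}
    (hL1 : ∀ a, |A1 a| ≤ L) (hL2 : ∀ a, |A2 a| ≤ L) (hH : Measurable H) (hLH : ∀ a, |H a| ≤ L)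
    (c : ℝ) (n : ℕ) :
    ip U (qq A1 A2 (n + 2)) (qq A1 A2 (n + 2)) = 4 * (c ^ 2 * ip U (am (n + 1) H) (am (n + 1) H) -
      2 * c * ip U (am (n + 1) H) (am (n + 1) (fun a => xd A1 A2 a + c * H a)) +
      ip U (am (n + 1) (fun a => xd A1 A2 a + c * H a))
        (am (n + 1) (fun a => xd A1 A2 a + c * H a))) -
      4 * (-c * ip U (am (n + 1) H) (pp A1 A2 n) +
        ip U (pp A1 A2 n) (am (n + 1) (fun a => xd A1 A2 a + c * H a))) +
      ip U (pp A1 A2 n) (pp A1 A2 n) ∧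
    ip U (am (n + 1) H) (qq A1 A2 (n + 2)) = 2 * (-c * ip U (am (n + 1) H) (am (n + 1) H) +
      ip U (am (n + 1) H) (am (n + 1) (fun a => xd A1 A2 a + c * H a))) -
      ip U (am (n + 1) H) (pp A1 A2 n) ∧
    ip U (am 0 H) (qq A1 A2 1) = -c * ip U (am 0 H) (am 0 H) +
      ip U (am 0 H) (am 0 (fun a => xd A1 A2 a + c * H a)) := by
  have hP := pp_gd hA1 hA2 hL1 hL2
  have hH' := Gd.am hH hLH
  have hX := Gd.am (xd_m hA1 hA2) (xd_b hL1 hL2)
  have hσm : Measurable (fun a => xd A1 A2 a + c * H a) :=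
    (xd_m hA1 hA2).add (hH.const_mul c)
  have hσb : ∀ a, |xd A1 A2 a + c * H a| ≤ 2 * L + |c| * L := by
    intro a
    refine (abs_add_le _ _).trans ?_
    rw [abs_mul]
    exact add_le_add (xd_b hL1 hL2 a) (mul_le_mul_of_nonneg_left (hLH a) (abs_nonneg c))
  have hσ := Gd.am hσm hσb
  have e1 : ip U (am (n + 1) (xd A1 A2)) (am (n + 1) (xd A1 A2)) =
      (-c) ^ 2 * ip U (am (n + 1) H) (am (n + 1) H) + 2 * (-c) * 1 *
        ip U (am (n + 1) H) (am (n + 1) (fun a => xd A1 A2 a + c * H a)) +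
      1 ^ 2 * ip U (am (n + 1) (fun a => xd A1 A2 a + c * H a))
        (am (n + 1) (fun a => xd A1 A2 a + c * H a)) := by
    rw [sig_eq hA1 hA2 hL1 hL2 hH hLH c (n + 1)]
    exact ip_lin2 (hH' (n + 1)) (hσ (n + 1)) (-c) 1
  have e2 : ip U (pp A1 A2 n) (am (n + 1) (xd A1 A2)) =
      -c * ip U (pp A1 A2 n) (am (n + 1) H) +
        1 * ip U (pp A1 A2 n) (am (n + 1) (fun a => xd A1 A2 a + c * H a)) := by
    rw [sig_eq hA1 hA2 hL1 hL2 hH hLH c (n + 1)]
    exact ip_lin (hP n) (hH' (n + 1)) (hσ (n + 1)) (-c) 1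
  have e3 : ip U (am (n + 1) H) (am (n + 1) (xd A1 A2)) =
      -c * ip U (am (n + 1) H) (am (n + 1) H) +
        1 * ip U (am (n + 1) H) (am (n + 1) (fun a => xd A1 A2 a + c * H a)) := by
    rw [sig_eq hA1 hA2 hL1 hL2 hH hLH c (n + 1)]
    exact ip_lin (hH' (n + 1)) (hH' (n + 1)) (hσ (n + 1)) (-c) 1
  have e4 : ip U (am 0 H) (am 0 (xd A1 A2)) =
      -c * ip U (am 0 H) (am 0 H) +
        1 * ip U (am 0 H) (am 0 (fun a => xd A1 A2 a + c * H a)) := by
    rw [sig_eq hA1 hA2 hL1 hL2 hH hLH c 0]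
    exact ip_lin (hH' 0) (hH' 0) (hσ 0) (-c) 1
  refine ⟨?_, ?_, ?_⟩
  · rw [q_eq hA1 hA2 hL1 hL2, ip_lin2 (hX (n + 1)) (hP n), ip_comm U _ (pp A1 A2 n), e1, e2,
      ip_comm U (pp A1 A2 n) (am (n + 1) H)]
    ring
  · rw [q_eq hA1 hA2 hL1 hL2, ip_lin (hH' (n + 1)) (hX (n + 1)) (hP n), e3]
    ring
  · rw [one_mul] at e4
    rw [← e4]
    refine integral_congr_ae (ae_of_all _ fun x => ?_)
    simp only [Complex.mul_re, Complex.conj_re, Complex.conj_im]
    rw [am0_im (v := H) x, rec0 hA1 hA2 hL1 hL2 x]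
    ring

/-- W4 -/
theorem pieceTelW : H34.WM.PieceTelW := by
  refine ⟨256 * Real.pi, by positivity, ?_⟩
  intro U ω G H A1 A2 B1 B2 s g L D
  have hfin : IsFiniteMeasure (volume.restrict U) := ⟨by
    rw [Measure.restrict_apply_univ]; exact lt_top_iff_ne_top.mpr D.Uf⟩
  have hfin2 : IsFiniteMeasure (volume.restrict (U ×ˢ (univ : Set Dir)) : Measure (ℂ × Dir)) := by
    rw [restr]
    infer_instance
  have hsq : ∀ {v : ℂ × Dir → ℝ} {K : ℝ}, Measurable v → (∀ a, |v a| ≤ K) →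
      Integrable (fun a => v a ^ 2) (volume.restrict (U ×ˢ (univ : Set Dir))) := by
    intro v K hv hK
    refine Integrable.mono' (integrable_const (K ^ 2)) (hv.pow_const 2).aestronglyMeasurable
      (ae_of_all _ fun a => ?_)
    rw [Real.norm_eq_abs, abs_of_nonneg (sq_nonneg _), ← sq_abs]
    exact pow_le_pow_left₀ (abs_nonneg _) (hK a) 2
  set σ : ℂ × Dir → ℝ := fun a => xd A1 A2 a + ω * H a with hσd
  set ς : ℂ × Dir → ℝ := fun a => xd B1 B2 a + (-ω) * G a with hςd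
  have hσm : Measurable σ := (xd_m D.A1m D.A2m).add (D.Hm.const_mul ω)
  have hςm : Measurable ς := (xd_m D.B1m D.B2m).add (D.Gm.const_mul (-ω))
  have hσb : ∀ a, |σ a| ≤ 2 * L + |ω| * L := by
    intro a
    refine (abs_add_le _ _).trans ?_
    rw [abs_mul]
    exact add_le_add (xd_b D.A1b D.A2b a) (mul_le_mul_of_nonneg_left (D.Hb a) (abs_nonneg ω))
  have hςb : ∀ a, |ς a| ≤ 2 * L + |-ω| * L := by
    intro a
    refine (abs_add_le _ _).trans ?_
    rw [abs_mul]
    exact add_le_add (xd_b D.B1b D.B2b a) (mul_le_mul_of_nonneg_left (D.Gb a) (abs_nonneg (-ω)))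
  have hsb : ∀ a, |s a| ≤ L := fun a => by rw [abs_of_nonneg (D.s0 a)]; exact D.sL a
  have hgb : ∀ a, |g a| ≤ L := fun a => by rw [abs_of_nonneg (D.g0 a)]; exact D.gL a
  set X : ℝ := S2 U s with hX
  set Y : ℝ := S2 U g with hY
  have hX0 : 0 ≤ X := integral_nonneg fun a => sq_nonneg _
  have hY0 : 0 ≤ Y := integral_nonneg fun a => sq_nonneg _
  have hG0 : 0 ≤ S2 U G := integral_nonneg fun a => sq_nonneg _
  have hH0 : 0 ≤ S2 U H := integral_nonneg fun a => sq_nonneg _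
  have hGd := Gd.am D.Gm D.Gb
  have hHd := Gd.am D.Hm D.Hb
  have hσg := Gd.am hσm hσb
  have hςg := Gd.am hςm hςb
  have hPA := pp_gd D.A1m D.A2m D.A1b D.A2b
  have hPB := pp_gd D.B1m D.B2m D.B1b D.B2b
  have hQA := qq_gd D.A1m D.A2m D.A1b D.A2b
  have hQB := qq_gd D.B1m D.B2m D.B1b D.B2b
  have enA := fun k => energy D.A1m D.A2m D.A1b D.A2b k (D.jA k)
  have enB := fun k => energy D.B1m D.B2m D.B1b D.B2b k (D.jB k)
  have cA := fun n => comp (U := U) D.A1m D.A2m D.A1b D.A2b D.Hm D.Hb ω n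
  have cB := fun n => comp (U := U) D.B1m D.B2m D.B1b D.B2b D.Gm D.Gb (-ω) n
  have hiG : ∀ n, ip U (pp A1 A2 n) (am (n + 1) H) + ip U (am n G) (qq B1 B2 (n + 1)) = 0 := by
    intro n
    rw [← D.iGH n]
    unfold ip
    rw [← integral_add ((hPA n).int (hHd (n + 1))) ((hGd n).int (hQB (n + 1)))]
    refine integral_congr_ae (ae_of_all _ fun x => ?_)
    simp only [Complex.add_re, pp, qq]
  have hiH : ∀ n, ip U (pp B1 B2 n) (am (n + 1) G) + ip U (am n H) (qq A1 A2 (n + 1)) = 0 := by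
    intro n
    rw [← D.iHG n]
    unfold ip
    rw [← integral_add ((hPB n).int (hGd (n + 1))) ((hHd n).int (hQA (n + 1)))]
    refine integral_congr_ae (ae_of_all _ fun x => ?_)
    simp only [Complex.add_re, pp, qq]
  set E : ℕ → ℝ := fun n => ip U (pp A1 A2 n) (pp A1 A2 n) + ip U (pp B1 B2 n) (pp B1 B2 n) with hE
  set A : ℕ → ℝ := fun n => ip U (am n G) (am n G) + ip U (am n H) (am n H) with hA
  set x : ℕ → ℝ := fun n => ip U (am n σ) (am n σ) + ip U (am n ς) (am n ς) with hx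
  set J : ℕ → ℝ := fun n => ip U (am n H) (pp A1 A2 (n - 1)) - ip U (am n G) (pp B1 B2 (n - 1))
    with hJ
  set er : ℕ → ℝ := fun n => -8 * ω * ip U (am n H) (am n σ) + 8 * ω * ip U (am n G) (am n ς) +
    4 * ip U (am n σ) (am n σ) + 4 * ip U (am n ς) (am n ς) -
    4 * ip U (pp A1 A2 (n - 1)) (am n σ) - 4 * ip U (pp B1 B2 (n - 1)) (am n ς) with her
  set ee : ℕ → ℝ := fun n => 2 * ip U (am n H) (am n σ) - 2 * ip U (am n G) (am n ς) with hee
  have bes : ∀ {v : ℂ × Dir → ℝ} {K : ℝ}, Measurable v → (∀ a, |v a| ≤ K) → ∀ S : Finset ℕ,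
      ∑ n ∈ S, ip U (am n v) (am n v) ≤ 2 * Real.pi * S2 U v := by
    intro v K hv hK S
    simp only [ip_self]
    exact bessel_int hv hK S
  have hmono : ∀ {v w : ℂ × Dir → ℝ} {K K' : ℝ}, Measurable v → (∀ a, |v a| ≤ K) →
      Measurable w → (∀ a, |w a| ≤ K') →
      (∀ᵐ a ∂(volume.restrict (U ×ˢ (univ : Set Dir))), |v a| ≤ w a) → S2 U v ≤ S2 U w := by
    intro v w K K' hv hK hw hK' h
    refine integral_mono_ae (hsq hv hK) (hsq hw hK') ?_
    filter_upwards [h] with a ha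
    rw [← sq_abs]
    exact pow_le_pow_left₀ (abs_nonneg _) ha 2
  have hsσ : S2 U σ ≤ X := by
    refine hmono hσm hσb D.sm hsb ?_
    filter_upwards [D.eA] with a ha
    exact ha
  have hsς : S2 U ς ≤ X := by
    refine hmono hςm hςb D.sm hsb ?_
    filter_upwards [D.eB] with a ha
    rw [hςd]
    simp only
    rw [neg_mul, ← sub_eq_add_neg]
    exact ha
  have hfin3 : ∀ {v w : ℂ × Dir → ℝ}, Measurable v → Measurable w → (∀ a, |v a| ≤ L) →
      (∀ a, |w a| ≤ L) →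
      (∀ᵐ a ∂(volume.restrict (U ×ˢ (univ : Set Dir))), v a ^ 2 + w a ^ 2 ≤ g a ^ 2) →
      ∀ S : Finset ℕ, ∑ k ∈ S, ∫ x in U, (‖am k v x‖ ^ 2 + ‖am k w x‖ ^ 2) ≤
        2 * Real.pi * Y := by
    intro v w hv hw hvb hwb h S
    have h1 : ∑ k ∈ S, ∫ x in U, (‖am k v x‖ ^ 2 + ‖am k w x‖ ^ 2) =
        (∑ k ∈ S, ∫ x in U, ‖am k v x‖ ^ 2) + (∑ k ∈ S, ∫ x in U, ‖am k w x‖ ^ 2) := by
      rw [← Finset.sum_add_distrib]
      exact Finset.sum_congr rfl fun k _ =>
        integral_add (am_sq_int hv hvb k) (am_sq_int hw hwb k)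
    rw [h1]
    refine (add_le_add (bessel_int hv hvb S) (bessel_int hw hwb S)).trans ?_
    rw [← mul_add, ← integral_add (hsq hv hvb) (hsq hw hwb)]
    refine mul_le_mul_of_nonneg_left ?_ (by positivity)
    exact integral_mono_ae ((hsq hv hvb).add (hsq hw hwb)) (hsq D.gm hgb) h
  have hpi := Real.pi_pos
  have main := seq_main ω E A J er ee x (4 * Real.pi) X Y (S2 U G + S2 U H) (by positivity)
    hX0 hY0 (by positivity) ?_ ?_ ?_ ?_ ?_ ?_ ?_ ?_ ?_ ?_ ?_
  · have hZ : Real.sqrt (S2 U G + S2 U H) ≤ Real.sqrt (S2 U G) + Real.sqrt (S2 U H) := by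
      rw [Real.sqrt_le_left (by positivity)]
      have h1 := Real.sq_sqrt hG0
      have h2 := Real.sq_sqrt hH0
      have h3 : 0 ≤ Real.sqrt (S2 U G) * Real.sqrt (S2 U H) := by positivity
      nlinarith
    have hC : 4 * Real.pi * (64 * (Real.sqrt X * (Real.sqrt Y +
        |ω| * Real.sqrt (S2 U G + S2 U H) + Real.sqrt X))) ≤
        256 * Real.pi * Ds U ω G H s g := by
      unfold Ds
      rw [← hX, ← hY]
      have h4 : |ω| * Real.sqrt (S2 U G + S2 U H) ≤
          |ω| * (Real.sqrt (S2 U G) + Real.sqrt (S2 U H)) :=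
        mul_le_mul_of_nonneg_left hZ (abs_nonneg ω)
      calc 4 * Real.pi * (64 * (Real.sqrt X * (Real.sqrt Y +
          |ω| * Real.sqrt (S2 U G + S2 U H) + Real.sqrt X)))
          ≤ 4 * Real.pi * (64 * (Real.sqrt X * (Real.sqrt Y +
          |ω| * (Real.sqrt (S2 U G) + Real.sqrt (S2 U H)) + Real.sqrt X))) := by gcongr
        _ = 256 * Real.pi * (Real.sqrt X * (Real.sqrt Y +
          |ω| * (Real.sqrt (S2 U G) + Real.sqrt (S2 U H)) + Real.sqrt X)) := by ring
    have heN : ∀ m, eN U A1 A2 B1 B2 m = E m := by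
      intro m
      simp only [hE]
      rw [(enA m).1, (enB m).1]
      exact integral_add ((am_sq_int D.A1m D.A1b m).add (am_sq_int D.A2m D.A2b m))
        ((am_sq_int D.B1m D.B1b m).add (am_sq_int D.B2m D.B2b m))
    have haN : ∀ m, aN U G H m = A m := by
      intro m
      simp only [hA]
      rw [ip_self, ip_self]
      exact integral_add (am_sq_int D.Gm D.Gb m) (am_sq_int D.Hm D.Hb m)
    simp only [heN, haN]
    exact ⟨fun m => (main.1 m).trans (by linarith), main.2.trans (by linarith)⟩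
  · -- hE
    intro n
    have h1 := (cA n).1
    have h2 := (cB n).1
    rw [(enA (n + 2)).2, ← (enA (n + 2)).1] at h1
    rw [(enB (n + 2)).2, ← (enB (n + 2)).1] at h2
    simp only [hE, hA, hJ, her, Nat.add_sub_cancel]
    rw [h1, h2]
    ring
  · -- hJ
    intro n
    have h1 := (cA n).2.1
    have h2 := (cB n).2.1
    have h3 := hiG (n + 1)
    have h4 := hiH (n + 1)
    have e2 : n + 1 + 1 = n + 2 := by ring
    have e3 : n + 2 - 1 = n + 1 := by omega
    simp only [hA, hJ, hee, Nat.add_sub_cancel, e3]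
    rw [e2] at h3 h4
    rw [ip_comm U (am (n + 2) H), ip_comm U (am (n + 2) G)]
    linarith
  · -- hJ0
    have h1 := (cA 0).2.2
    have h2 := (cB 0).2.2
    have h3 := hiG 0
    have h4 := hiH 0
    rw [zero_add] at h3 h4
    simp only [hA, hJ, hee, Nat.sub_self]
    rw [ip_comm U (am 1 H), ip_comm U (am 1 G)]
    linarith
  · exact fun n => add_nonneg (ip_self_nonneg _ _) (ip_self_nonneg _ _)
  · exact fun n => add_nonneg (ip_self_nonneg _ _) (ip_self_nonneg _ _)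
  · exact fun n => add_nonneg (ip_self_nonneg _ _) (ip_self_nonneg _ _)
  · intro S
    simp only [hx]
    rw [Finset.sum_add_distrib]
    have h1 := bes hσm hσb S
    have h2 := bes hςm hςb S
    nlinarith
  · intro S
    simp only [hA]
    rw [Finset.sum_add_distrib]
    have h1 := bes D.Gm D.Gb S
    have h2 := bes D.Hm D.Hb S
    have h3 : 0 ≤ Real.pi * (S2 U G + S2 U H) := by positivity
    linarith
  · intro S
    simp only [hE]
    rw [Finset.sum_add_distrib]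
    have h1 : ∑ n ∈ S, ip U (pp A1 A2 n) (pp A1 A2 n) ≤ 2 * Real.pi * Y := by
      rw [Finset.sum_congr rfl fun n _ => (enA n).1]
      exact hfin3 D.A1m D.A2m D.A1b D.A2b D.gA S
    have h2 : ∑ n ∈ S, ip U (pp B1 B2 n) (pp B1 B2 n) ≤ 2 * Real.pi * Y := by
      rw [Finset.sum_congr rfl fun n _ => (enB n).1]
      exact hfin3 D.B1m D.B2m D.B1b D.B2b D.gB S
    linarith
  · -- ber
    intro n t τ ht hτ
    have h1 := ip_abs (U := U) (hHd (n + 1)) (hσg (n + 1)) ht
    have h2 := ip_abs (U := U) (hGd (n + 1)) (hςg (n + 1)) ht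
    have h3 := ip_abs (U := U) (hPA n) (hσg (n + 1)) hτ
    have h4 := ip_abs (U := U) (hPB n) (hςg (n + 1)) hτ
    have h5 : |ω * ip U (am (n + 1) H) (am (n + 1) σ)| ≤ |ω| *
        ((t * ip U (am (n + 1) σ) (am (n + 1) σ) +
          ip U (am (n + 1) H) (am (n + 1) H) / t) / 2) := by
      rw [abs_mul]
      exact mul_le_mul_of_nonneg_left h1 (abs_nonneg _)
    have h6 : |ω * ip U (am (n + 1) G) (am (n + 1) ς)| ≤ |ω| *
        ((t * ip U (am (n + 1) ς) (am (n + 1) ς) +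
          ip U (am (n + 1) G) (am (n + 1) G) / t) / 2) := by
      rw [abs_mul]
      exact mul_le_mul_of_nonneg_left h2 (abs_nonneg _)
    have n1 := ip_self_nonneg U (am (n + 1) σ)
    have n2 := ip_self_nonneg U (am (n + 1) ς)
    simp only [her, hx, hA, hE, Nat.add_sub_cancel, add_div, mul_add]
    simp only [add_div, mul_add] at h3 h4 h5 h6
    rw [abs_le] at h3 h4 h5 h6 ⊢
    obtain ⟨a3, b3⟩ := h3
    obtain ⟨a4, b4⟩ := h4
    obtain ⟨a5, b5⟩ := h5
    obtain ⟨a6, b6⟩ := h6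
    constructor <;> nlinarith
  · -- bee
    intro n t ht
    have h1 := ip_abs (U := U) (hHd n) (hσg n) ht
    have h2 := ip_abs (U := U) (hGd n) (hςg n) ht
    simp only [hee, hx, hA, add_div, mul_add]
    simp only [add_div] at h1 h2
    rw [abs_le] at h1 h2 ⊢
    constructor <;> linarith [h1.1, h1.2, h2.1, h2.2]

end H85.WM
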